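import Pool.Agent.N375.AV.D
import Pool.Agent.Results.MP_0b15c0_nt.SquareRootExceptions

/-!
# Small witnesses for the strong pseudoprimality test near the values of additive functions and their compositions

Let `F = f_1 ∘ ⋯ ∘ f_k` be a composition of functions dominated by the largest prime factor: for example additive functions
`f` with `f (q^j) ≤ C q^j` at the prime powers, with different values at different large primes (the sum of the prime factors),
the largest prime factor itself, and Kempner's function. Let `α > 0`, `1 ≤ d < 2` and `κ < 1 - d / 2`. For all `m ≤ N` but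
`K N exp (- c (log N)^(1 / (k + 1)))` EVERY integer `n` with `|n - α F(m)^d| ≤ F(m)^κ` is prime or has a witness
`b ≤ 2 (log n)^2`. The values of `F` are taken with very large multiplicities and `F(m)` is in general much smaller than `m`,
of the size of a power of `m` with an exponent which has a distribution function.

Proof. The preimage of a set with at most `K X exp (- c (log X)^β)` elements up to `X` under a function dominated by the largest
prime factor has at most `K' X exp (- c' (log X)^(β / (1 + β)))` elements: write `m = u p`, `p` the largest prime factor, count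
the primes `p` for fixed `u`, and use Rankin's bound for the smooth numbers. The exceptional set has a power saving by the
starting theorem `SquareRootExceptions` of this problem.
-/

set_option autoImplicit false

namespace Pool.Agent.Results.MP_0b15c0_nt.AdditiveValues

open Finset
open Pool.Agent.N733.TG (Expanding expanding_pow)
open Pool.Agent.N375.AV (PD comp good_nat pd_additive pd_largest pd_kempner)
open Pool.Agent.Results.MP_0b15c0_nt.SquareRootExceptions (IsWitness Exceptions)

/-- `n` is prime or has a witness `1 < b ≤ 2 (log n)^A` for the strong test -/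
def Decided (A : ℝ) (n : ℕ) : Prop :=
  n.Prime ∨ ∃ b : ℕ, 1 < b ∧ (b : ℝ) ≤ 2 * (Real.log n) ^ A ∧ IsWitness n b

/-- **Small witnesses near the values of compositions of additive functions.** Let `F = f_1 ∘ ⋯ ∘ f_k`, `f_i` dominated by the
largest prime factor. Let `G` have steps `≥ a > 0` and growth at most `v^d`. Let `A ≥ 2`, `κ ≥ 0` and `d / A + κ < 1`. For all
`m ≤ N` but `K N exp (- c (log N)^(1 / (k + 1)))` EVERY integer `n ≥ 2` with `|n - G (F m)| ≤ F(m)^κ` is prime or has a witness
`1 < b ≤ 2 (log n)^A`. The additive functions with `f (q^j) ≤ C q^j` which are injective at the large primes, the largest prime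
factor and Kempner's function are examples of such functions `f_i`, and `α v^d` with `α > 0`, `d ≥ 1` is an example of `G`. -/
theorem result :
    (∀ fs : List (ℕ → ℕ), (∀ f ∈ fs, PD f) → ∀ (G : ℕ → ℝ) (d : ℝ), Expanding G d → ∀ A κ : ℝ, 2 ≤ A → 0 ≤ κ →
      d / A + κ < 1 → ∃ c K : ℝ, 0 < c ∧ ∀ N : ℕ, 1 ≤ N →
      ({m : ℕ | 1 ≤ m ∧ m ≤ N ∧ ¬ ∀ n : ℕ, 2 ≤ n → |(n : ℝ) - G (comp fs m)| ≤ (comp fs m : ℝ) ^ κ →
        Decided A n}.ncard : ℝ) ≤ K * N * Real.exp (-(c * Real.log N ^ ((1 : ℝ) / (fs.length + 1))))) ∧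
    (∀ f : ℕ → ℕ, (∀ a b : ℕ, Nat.Coprime a b → f (a * b) = f a + f b) →
      (∃ C : ℕ, ∀ q j : ℕ, q.Prime → 1 ≤ j → f (q ^ j) ≤ C * q ^ j) →
      (∃ P : ℕ, ∀ p q : ℕ, p.Prime → q.Prime → P ≤ p → P ≤ q → f p = f q → p = q) → PD f) ∧
    (PD (fun n => n.primeFactors.sup id) ∧ PD (fun n => sInf {k : ℕ | n ∣ k.factorial})) ∧
    ∀ α d : ℝ, 0 < α → 1 ≤ d → Expanding (fun v => α * (v : ℝ) ^ d) d := by
  refine ⟨fun fs hfs G d hG A κ hA hκ h1 => ?_, fun f h2 h3 h4 => pd_additive h2 h3 h4, ⟨pd_largest, pd_kempner⟩,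
    fun α d hα hd => expanding_pow hα hd⟩
  obtain ⟨c, K, hc, hcK⟩ := good_nat (fun n => 2 ≤ n) (Decided A) fs hfs hG (s := 1 / A) (κ := κ) (by positivity) hκ
    (by rw [mul_one_div]; exact h1) (fun ε hε => by
      obtain ⟨K, hK⟩ := Pool.Agent.Results.MP_0b15c0_nt.SquareRootExceptions.result A ε hA hε
      refine ⟨K, fun X hX => le_trans ?_ (hK X hX).2⟩
      have : {t : ℕ | 1 ≤ t ∧ t ≤ X ∧ 2 ≤ t ∧ ¬ Decided A t} ⊆ Exceptions A X := by
        rintro n ⟨_, h4, h2, h3⟩
        unfold Decided at h3
        push Not at h3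
        exact ⟨h4, h2, h3.1, fun ⟨b, b1, b2, b3⟩ => h3.2 b b1 b2 b3⟩
      exact_mod_cast Set.ncard_le_ncard this (hK X hX).1)
  refine ⟨c, K, hc, fun N hN => le_trans (le_of_eq ?_) (hcK N hN)⟩
  congr 2
  ext m
  simp only [Set.mem_ofPred_eq]
  have : (∀ n : ℕ, 2 ≤ n → |(n : ℝ) - G (comp fs m)| ≤ (comp fs m : ℝ) ^ κ → Decided A n) ↔
      ∀ n : ℕ, 1 ≤ n → 2 ≤ n → |(n : ℝ) - G (comp fs m)| ≤ (comp fs m : ℝ) ^ κ → Decided A n :=
    ⟨fun h n _ => h n, fun h n hn => h n (by omega) hn⟩
  rw [this]

end Pool.Agent.Results.MP_0b15c0_nt.AdditiveValues
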