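import Pool.Agent.N733.TG.K
import Pool.Agent.Results.MP_0b15c0_nt.SquareRootExceptions

/-!
# Small witnesses for the strong pseudoprimality test near functions of the values of multiplicative functions

Let `f` be a positive multiplicative function of at most polynomial growth such that `f p ≤ M p` for the large primes `p`,
with different values at different large primes; for example Euler's function or the sum of the divisors. Let `α > 0`,
`1 ≤ d < 2` and `κ < 1 - d / 2`. For all `m ≤ N` but `N / (log N)^U` EVERY integer `n` with `|n - α f(m)^d| ≤ f(m)^κ` is prime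
or has a witness `b ≤ 2 (log n)^2`. More generally `G (f m)` takes the place of `α f(m)^d`, where `G` is any function with
steps bounded below by a positive constant and growth at most `v^d`. The values of `f` are in general taken with very large
multiplicities, and so this does not follow from the size of the exceptional set, which may have `x^(1/2)` elements.

Proof. Write `m = k w` where `k` is composed of the primes `≤ z = N^(1 / J)`, `J` about `log log N`. For most `m` one has
`k ≤ N^η`, and `w` is a product of at most `J` different primes. So `f(w)` is taken at most `(1 + τ)^J` times, `τ` its number of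
divisors, which is at most `N^o(1)` on average, even in mean square: and the exceptional set has only `N^(1 - δ)` elements. Its
size is bounded by the starting theorem `SquareRootExceptions` of this problem.
-/

set_option autoImplicit false

namespace Pool.Agent.Results.MP_0b15c0_nt.MultiplicativeValues

open Finset
open Pool.Agent.N733.TG (LM Expanding lm_totient lm_sigma keep_good_nat expanding_pow)
open Pool.Agent.Results.MP_0b15c0_nt.SquareRootExceptions (IsWitness Exceptions)

/-- `n` is prime or has a witness `1 < b ≤ 2 (log n)^A` for the strong test -/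
def Decided (A : ℝ) (n : ℕ) : Prop :=
  n.Prime ∨ ∃ b : ℕ, 1 < b ∧ (b : ℝ) ≤ 2 * (Real.log n) ^ A ∧ IsWitness n b

/-- **Small witnesses near the values of multiplicative functions.** Let `f` be multiplicative and positive, of at most
polynomial growth, with `f p ≤ M p` at the large primes, and injective there. Let `G` have steps `≥ a > 0` and growth at most
`v^d`. Let `A ≥ 2`, `κ ≥ 0` and `d / A + κ < 1`. For every `U` and all large `N`, for all `m ≤ N` but `N / (log N)^U`, EVERY
integer `n ≥ 2` with `|n - G (f m)| ≤ f(m)^κ` is prime or has a witness `1 < b ≤ 2 (log n)^A`. Euler's function and the sum of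
the divisors are examples of such functions `f`, and `α v^d` with `α > 0`, `d ≥ 1` is an example of `G`. -/
theorem result :
    (∀ f : ℕ → ℕ, LM f → ∀ (G : ℕ → ℝ) (d : ℝ), Expanding G d → ∀ A κ : ℝ, 2 ≤ A → 0 ≤ κ → d / A + κ < 1 →
      ∀ U : ℕ, ∃ N₀ : ℕ, ∀ N : ℕ, N₀ ≤ N →
      ({m : ℕ | 1 ≤ m ∧ m ≤ N ∧ ¬ ∀ n : ℕ, 2 ≤ n → |(n : ℝ) - G (f m)| ≤ (f m : ℝ) ^ κ → Decided A n}.ncard : ℝ) ≤
        N / Real.log N ^ U) ∧
    (LM Nat.totient ∧ LM (fun m => ∑ d ∈ m.divisors, d)) ∧
    ∀ α d : ℝ, 0 < α → 1 ≤ d → Expanding (fun v => α * (v : ℝ) ^ d) d := by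
  refine ⟨fun f hf G d hG A κ hA hκ h1 U => ?_, ⟨lm_totient, lm_sigma⟩, fun α d hα hd => expanding_pow hα hd⟩
  obtain ⟨N₀, hN₀⟩ := keep_good_nat (fun n => 2 ≤ n) (Decided A) hf hG (s := 1 / A) (κ := κ) (by positivity) hκ
    (by rw [mul_one_div]; exact h1) (fun ε hε => by
      obtain ⟨K, hK⟩ := Pool.Agent.Results.MP_0b15c0_nt.SquareRootExceptions.result A ε hA hε
      refine ⟨K, fun X hX => le_trans ?_ (hK X hX).2⟩
      have : {t : ℕ | 1 ≤ t ∧ t ≤ X ∧ 2 ≤ t ∧ ¬ Decided A t} ⊆ Exceptions A X := by
        rintro n ⟨_, h4, h2, h3⟩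
        unfold Decided at h3
        push Not at h3
        exact ⟨h4, h2, h3.1, fun ⟨b, b1, b2, b3⟩ => h3.2 b b1 b2 b3⟩
      exact_mod_cast Set.ncard_le_ncard this (hK X hX).1) U
  refine ⟨N₀, fun N hN => le_trans (le_of_eq ?_) (hN₀ N hN)⟩
  congr 2
  ext m
  simp only [Set.mem_ofPred_eq]
  have : (∀ n : ℕ, 2 ≤ n → |(n : ℝ) - G (f m)| ≤ (f m : ℝ) ^ κ → Decided A n) ↔
      ∀ n : ℕ, 1 ≤ n → 2 ≤ n → |(n : ℝ) - G (f m)| ≤ (f m : ℝ) ^ κ → Decided A n :=
    ⟨fun h n _ => h n, fun h n hn => h n (by omega) hn⟩
  rw [this]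

end Pool.Agent.Results.MP_0b15c0_nt.MultiplicativeValues
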