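import Pool.Agent.N671.DA.Win
import Pool.Agent.Results.MP_0b15c0_nt.SquareRootExceptions

/-!
# Small witnesses for the strong pseudoprimality test near functions of the denominators of good approximations

Let `α_1, …, α_m` be real numbers. We consider the natural numbers `q` with `‖q α_j - β_j‖ ≤ c q^(-τ)` for all `j`, `‖x‖` the
distance to the nearest integer; for `β = 0`, `c = 1`, `τ = 1 / m` these include the denominators of all best simultaneous
approximations (the denominators of the convergents for `m = 1`). They form a very sparse sequence, with gaps growing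
exponentially for almost all `α` if `τ = 1 / m`. We show: let `G` be a function with steps bounded below by a positive constant
and growth at most `v^d`, for example `α v^d`. For all `α` in `ℝ^m` outside a set of Hausdorff dimension at most
`(m + d / 2 + κ) / (1 + τ)`, and all `c`, for all but finitely many such `q` EVERY integer `n` with `|n - G q| ≤ q^κ` is prime
or has a witness `b ≤ 2 (log n)^2`. For `τ = 1 / m` the bound is less than `m` if `d / 2 + κ < 1`; and so the statement holds
for almost all `α`.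

Proof. The `q` such that some exceptional integer is near `G q` form a set with `O(X^(d / 2 + κ + ε))` elements up to `X`, by
the starting theorem `SquareRootExceptions` of this problem; and the `α` with `‖q α_j - β_j‖ ≤ c q^(-τ)` for all `j` and
infinitely many `q` of such a set are covered by few small cubes.
-/

set_option autoImplicit false

namespace Pool.Agent.Results.MP_0b15c0_nt.SimultaneousApproximations

open Finset
open Pool.Agent.N671.DA (Solves Expanding expanding_pow approx_good_nat)
open Pool.Agent.Results.MP_0b15c0_nt.SquareRootExceptions (IsWitness Exceptions)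

/-- `n` is prime or has a witness `1 < b ≤ 2 (log n)^A` for the strong test -/
def Decided (A : ℝ) (n : ℕ) : Prop :=
  n.Prime ∨ ∃ b : ℕ, 1 < b ∧ (b : ℝ) ≤ 2 * (Real.log n) ^ A ∧ IsWitness n b

/-- **Small witnesses near the denominators of good approximations.** Let `G` have steps `≥ a > 0` and growth at most `v^d`.
Let `A ≥ 2`, `0 ≤ κ ≤ 1`, `β` in `ℝ^m` and `τ > 0`. For all `α` in `ℝ^m` outside a set of Hausdorff dimension at most
`(m + d / A + κ) / (1 + τ)` and all `c`, for all large `q` with `‖q α_j - β_j‖ ≤ c q^(-τ)` for all `j`, EVERY integer `n ≥ 2`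
with `|n - G q| ≤ q^κ` is prime or has a witness `1 < b ≤ 2 (log n)^A`. The functions `α v^d` with `α > 0`, `d ≥ 1` are
examples of `G`. -/
theorem result :
    (∀ (G : ℕ → ℝ) (d : ℝ), Expanding G d → ∀ A κ : ℝ, 2 ≤ A → 0 ≤ κ → κ ≤ 1 →
      ∀ (m : ℕ) (β : Fin m → ℝ) (τ : ℝ), 0 < τ →
      ∃ E : Set (Fin m → ℝ), dimH E ≤ ENNReal.ofReal ((m + (d / A + κ)) / (1 + τ)) ∧
        ∀ α, α ∉ E → ∀ c : ℝ, ∃ Q : ℕ, ∀ q : ℕ, Q ≤ q → Solves α β q (c * (q : ℝ) ^ (-τ)) →
          ∀ n : ℕ, 2 ≤ n → |(n : ℝ) - G q| ≤ (q : ℝ) ^ κ → Decided A n) ∧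
    ∀ α d : ℝ, 0 < α → 1 ≤ d → Expanding (fun v => α * (v : ℝ) ^ d) d := by
  refine ⟨fun G d hG A κ hA hκ hκ1 m β τ hτ => ?_, fun α d hα hd => expanding_pow hα hd⟩
  obtain ⟨E, hE, hE2⟩ := approx_good_nat (fun n => 2 ≤ n) (Decided A) hG (s := 1 / A) (κ := κ) (by positivity) hκ hκ1
    (fun ε hε => by
      obtain ⟨K, hK⟩ := Pool.Agent.Results.MP_0b15c0_nt.SquareRootExceptions.result A ε hA hε
      refine ⟨K, fun X hX => le_trans ?_ (hK X hX).2⟩
      have : {t : ℕ | 1 ≤ t ∧ t ≤ X ∧ 2 ≤ t ∧ ¬ Decided A t} ⊆ Exceptions A X := by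
        rintro n ⟨_, h4, h2, h3⟩
        unfold Decided at h3
        push Not at h3
        exact ⟨h4, h2, h3.1, fun ⟨b, b1, b2, b3⟩ => h3.2 b b1 b2 b3⟩
      exact_mod_cast Set.ncard_le_ncard this (hK X hX).1) β hτ
  rw [mul_one_div] at hE
  refine ⟨E, hE, fun α hα c => ?_⟩
  obtain ⟨Q, hQ⟩ := hE2 α hα c
  exact ⟨Q, fun q hq h1 n hn h2 => hQ q hq h1 n (by omega) hn h2⟩

end Pool.Agent.Results.MP_0b15c0_nt.SimultaneousApproximations
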