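import Pool.Agent.N760.IT.D
import Pool.Agent.Results.MP_0b15c0_nt.SquareRootExceptions

/-!
# Small witnesses for the strong pseudoprimality test along almost all orbits of Euler's function

Let `φ_k` be the `k`-th iterate of Euler's function, `φ_0(m) = m`. Let `f` be a positive multiplicative function of at most
polynomial growth such that `f p ≤ M p` for the large primes `p`, with different values at different large primes; for example
the identity, Euler's function or the sum of the divisors. Let `α > 0`, `1 ≤ d < 2` and `κ < 1 - d / 2`. There is `K(m)` tending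
to infinity such that for almost all `m`, for all `k ≤ K(m)`, with `v = f(φ_k(m))`, EVERY integer `n` with `|n - α v^d| ≤ v^κ` is
prime or has a witness `b ≤ 2 (log n)^2`. More generally `G v` takes the place of `α v^d`, where `G` is any function with
steps bounded below by a positive constant and growth at most `v^d`. The iterates of Euler's function are not multiplicative,
their values form a very thin set and are taken with very large multiplicities, and so this does not follow from the size of the
exceptional set, which may have `x^(1/2)` elements.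
-/

set_option autoImplicit false

namespace Pool.Agent.Results.MP_0b15c0_nt.TotientOrbits

open Finset Filter
open Pool.Agent.N733.TG (LM Expanding lm_totient lm_sigma expanding_pow)
open Pool.Agent.N760.IT (orb lm_id)
open Pool.Agent.N826.IT.Orb (AlmostAll almostAll_mono)
open Pool.Agent.Results.MP_0b15c0_nt.SquareRootExceptions (IsWitness Exceptions)

/-- `n` is prime or has a witness `1 < b ≤ 2 (log n)^A` for the strong test -/
def Decided (A : ℝ) (n : ℕ) : Prop :=
  n.Prime ∨ ∃ b : ℕ, 1 < b ∧ (b : ℝ) ≤ 2 * (Real.log n) ^ A ∧ IsWitness n b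

/-- **Small witnesses along almost all orbits of Euler's function.** Let `f` be multiplicative and positive, of at most
polynomial growth, with `f p ≤ M p` at the large primes, and injective there. Let `G` have steps `≥ a > 0` and growth at most
`v^d`. Let `A ≥ 2`, `κ ≥ 0` and `d / A + κ < 1`. There is `K(m)` tending to infinity such that for almost all `m`, for all
`k ≤ K(m)`, with `v = f(φ_k(m))` (`orb f k m`), EVERY integer `n ≥ 2` with `|n - G v| ≤ v^κ` is prime or has a witness
`1 < b ≤ 2 (log n)^A`. The identity, Euler's function and the sum of the divisors are examples of such functions `f`, and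
`α v^d` with `α > 0`, `d ≥ 1` is an example of `G`. -/
theorem result :
    (∀ f : ℕ → ℕ, LM f → ∀ (G : ℕ → ℝ) (d : ℝ), Expanding G d → ∀ A κ : ℝ, 2 ≤ A → 0 ≤ κ → d / A + κ < 1 →
      ∃ K : ℕ → ℕ, Tendsto K atTop atTop ∧
        AlmostAll (fun m => ∀ k ≤ K m, ∀ n : ℕ, 2 ≤ n → |(n : ℝ) - G (orb f k m)| ≤ (orb f k m : ℝ) ^ κ →
          Decided A n)) ∧
    (LM (fun m => m) ∧ LM Nat.totient ∧ LM (fun m => ∑ d ∈ m.divisors, d)) ∧
    ∀ α d : ℝ, 0 < α → 1 ≤ d → Expanding (fun v => α * (v : ℝ) ^ d) d := by
  refine ⟨fun f hf G d hG A κ hA hκ h1 => ?_, ⟨lm_id, lm_totient, lm_sigma⟩, fun α d hα hd => expanding_pow hα hd⟩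
  obtain ⟨K, hK, hK2⟩ := Pool.Agent.N760.IT.orbit_good_nat (fun n => 2 ≤ n) (Decided A) hf hG (s := 1 / A) (κ := κ)
    (by positivity) hκ (by rw [mul_one_div]; exact h1) (fun ε hε => by
      obtain ⟨K, hK⟩ := Pool.Agent.Results.MP_0b15c0_nt.SquareRootExceptions.result A ε hA hε
      refine ⟨K, fun X hX => le_trans ?_ (hK X hX).2⟩
      have : {t : ℕ | 1 ≤ t ∧ t ≤ X ∧ 2 ≤ t ∧ ¬ Decided A t} ⊆ Exceptions A X := by
        rintro n ⟨_, h4, h2, h3⟩
        unfold Decided at h3
        push Not at h3
        exact ⟨h4, h2, h3.1, fun ⟨b, b1, b2, b3⟩ => h3.2 b b1 b2 b3⟩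
      exact_mod_cast Set.ncard_le_ncard this (hK X hX).1)
  exact ⟨K, hK, almostAll_mono hK2 (fun m hm k hk n hn hw => hm k hk n (by omega) hn hw)⟩

end Pool.Agent.Results.MP_0b15c0_nt.TotientOrbits
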